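import Pool.Agent.Helper77.SO.St
import Pool.Agent.Helper72.OF4.C3

/-!
# MP_7a9ddc_co, project SO, module IQC: the inequality, connected case
-/

set_option autoImplicit false

namespace Pool.Agent.Helper76.SO.IQC

open Equiv Equiv.Perm Pool.Agent.Helper35.PM Pool.Agent.Helper77.HY Pool.Agent.Helper77.OF4
  Pool.Agent.Helper77.SO

theorem exists_lt {D : Type} [Finite D] (f : Perm D) {a b : D} (h : f.SameCycle a b) :
    ∃ i < Function.minimalPeriod f a, (f ^ i) a = b := by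
  obtain ⟨n, hn⟩ := h.exists_nat_pow_eq
  have hpos : 0 < Function.minimalPeriod f a :=
    Function.minimalPeriod_pos_of_mem_periodicPts (f.injective.mem_periodicPts a)
  refine ⟨n % Function.minimalPeriod f a, Nat.mod_lt _ hpos, ?_⟩
  rw [← hn, ← iterate_eq_pow, ← iterate_eq_pow]
  exact Function.iterate_mod_minimalPeriod_eq

/-- a sum over a cycle -/
theorem sum_cycle {D : Type} [Finite D] (r : Perm D) (N : Finset D) (a0 : D) (h0 : a0 ∈ N)
    (hN : ∀ d, r d ∈ N ↔ d ∈ N) (hs : ∀ d ∈ N, r.SameCycle a0 d) (f : D → ℤ) :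
    ∑ a ∈ N, f a = ∑ i ∈ Finset.range (Function.minimalPeriod r a0), f ((r ^ (i + 1)) a0) := by
  symm
  have hp : ∀ i : ℕ, (r ^ i) a0 ∈ N := by
    intro i
    induction i with
    | zero => simpa using h0
    | succ i ih =>
      rw [pow_succ', Perm.mul_apply, hN]
      exact ih
  refine Finset.sum_nbij (fun i => (r ^ (i + 1)) a0) (fun i _ => hp _) ?_ ?_ (fun i _ => rfl)
  · intro i hi j hj hij
    have hi' : i < Function.minimalPeriod r a0 := by simpa using hi
    have hj' : j < Function.minimalPeriod r a0 := by simpa using hj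
    have h1 : (r ^ (i + 1)) a0 = (r ^ (j + 1)) a0 := hij
    rw [pow_succ', pow_succ', Perm.mul_apply, Perm.mul_apply] at h1
    have h2 := r.injective h1
    rw [← iterate_eq_pow, ← iterate_eq_pow] at h2
    exact Function.iterate_injOn_Iio_minimalPeriod hi' hj' h2
  · intro a ha
    have ha' : a ∈ N := ha
    have h1 : r.symm a ∈ N := by
      rw [← hN, r.apply_symm_apply]
      exact ha'
    obtain ⟨i, hi, hia⟩ := exists_lt r (hs _ h1)
    refine ⟨i, by simpa using hi, ?_⟩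
    show (r ^ (i + 1)) a0 = a
    rw [pow_succ', Perm.mul_apply, hia, r.apply_symm_apply]

/-- the graph with the merged vertex is connected -/
theorem conn {V : Type} (G : SimpleGraph V) (W : Set V) (S : Finset V)
    (hc : (G.induce (S : Set V)).Connected) (hex : ∃ v ∈ S, ∃ w ∈ W, G.Adj v w) :
    (HG G W S).Connected := by
  let φ : G.induce (S : Set V) →g HG G W S :=
    { toFun := fun x => some ⟨x.1, Finset.mem_coe.1 x.2⟩
      map_rel' := fun {a b} h => h }
  obtain ⟨v, hv, w, hw, hvw⟩ := hex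
  have h0 : (HG G W S).Adj none (some ⟨v, hv⟩) := ⟨w, hw, hvw⟩
  rw [SimpleGraph.connected_iff_exists_forall_reachable]
  refine ⟨none, ?_⟩
  rintro (_ | ⟨x, hx⟩)
  · exact SimpleGraph.Reachable.refl _
  · exact h0.reachable.trans
      ((hc.preconnected ⟨v, Finset.mem_coe.2 hv⟩ ⟨x, Finset.mem_coe.2 hx⟩).map φ)

open scoped Classical in
/-- the image of a vertex -/
noncomputable def tv {V U : Type} {G : SimpleGraph V} (τ : G.Dart → U) (u0 : U) (v : V) : U :=
  if h : ∃ d : G.Dart, d.fst = v then τ h.choose else u0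

theorem tv_eq {V U : Type} {G : SimpleGraph V} (τ : G.Dart → U) (u0 : U)
    (h : ∀ d d' : G.Dart, d.fst = d'.fst → τ d = τ d') (d : G.Dart) : tv τ u0 d.fst = τ d := by
  unfold tv
  rw [dif_pos ⟨d, rfl⟩]
  exact h _ _ (Exists.choose_spec (⟨d, rfl⟩ : ∃ d' : G.Dart, d'.fst = d.fst))

/-- the image of an optional vertex -/
def ov {V U : Type} {S : Finset V} (f : V → U) (u0 : U) : Option {v : V // v ∈ S} → U
  | some x => f x.1
  | none => u0

theorem main (hHr : StHr) (hFa : StFa) (hCc : StCc) (hE : Pool.Agent.Helper35.PM.StEul) : StIqc := by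
  classical
  intro V _ G R W hW hQ S hSW hconn hS2 hex
  cases nonempty_fintype V
  obtain ⟨r', U, τ, Z, hPl, hr, hmerge, hτt, hτZ, hτι, hacyc, hST⟩ := hQ
  obtain ⟨v₀, hv₀, w₀, hw₀, hvw₀⟩ := id hex
  set u0 : U := τ ⟨(v₀, w₀), hvw₀⟩ with hu0
  set F := FG R.map.ι τ Z with hF
  set τv : V → U := tv τ u0 with hτv
  have htv : ∀ d : G.Dart, τv d.fst = τ d := tv_eq τ u0 hτt
  have htv' : ∀ d : G.Dart, τ (R.map.ι d) = τv d.snd := fun d => (htv d.symm).symm
  have hF2 : F.Colorable 2 := hacyc.colorable_two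
  have hadj : ∀ u ∈ S, ∀ v ∈ S, G.Adj u v → F.Adj (τv u) (τv v) := by
    intro u hu v hv huv
    have e1 : τv u = τ ⟨(u, v), huv⟩ := htv ⟨(u, v), huv⟩
    have e2 : τv v = τ (R.map.ι ⟨(u, v), huv⟩) := (htv' ⟨(u, v), huv⟩).symm
    rw [e1, e2]
    refine ⟨(hτι _).symm, ?_, ?_, Or.inl ⟨_, rfl, rfl⟩⟩
    · intro h
      exact hSW u hu ((hτZ _).1 h)
    · intro h
      exact hSW v hv ((hτZ _).1 h)
  have hreach : ∀ u ∈ S, ∀ v ∈ S, F.Reachable (τv u) (τv v) := by
    let φ : G.induce (S : Set V) →g F :=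
      { toFun := fun x => τv x.1
        map_rel' := fun {a b} h => hadj a.1 a.2 b.1 b.2 h }
    intro u hu v hv
    exact (hconn.preconnected ⟨u, hu⟩ ⟨v, hv⟩).map φ
  obtain ⟨R', hR'⟩ := hHr V G R W r' hW hPl hr hmerge S hSW
  obtain ⟨hF1, hFn⟩ := hFa V G W S R' U F τv hconn hS2 hex hF2 hadj
  -- the merged vertex
  set N : Finset (HG G W S).Dart := Finset.univ.filter (fun d => d.fst = none) with hN
  have hNm : ∀ d, d ∈ N ↔ d.fst = none := fun d => by simp [hN]
  set ξ : (HG G W S).Dart → U := fun d => ov τv u0 d.snd with hξ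
  set ℓ : (HG G W S).Dart → ℤ := fun d =>
    if ξ d = ξ (R'.r.symm d) then 4 else (F.dist (ξ d) (ξ (R'.r.symm d)) : ℤ) + 2 with hℓ
  have hsnd : ∀ d : (HG G W S).Dart, d.fst = none → ∃ x, d.snd = some x := by
    intro d hd
    rcases hx : d.snd with _ | x
    · exact absurd (hd.trans hx.symm) d.adj.ne
    · exact ⟨x, rfl⟩
  have hsymmfst : ∀ d : (HG G W S).Dart, (R'.r.symm d).fst = d.fst := by
    intro d
    conv_rhs => rw [← R'.r.apply_symm_apply d, R'.fst_r]
  have hcc := hCc (HG G W S).Dart R'.φ N ℓ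
    (by
      intro a ha b hb hab
      exact ((hFn a ((hNm a).1 ha)).1 b ((hNm b).1 hb) hab).symm)
    (by
      intro d hd
      apply hF1
      intro j hj
      exact hd _ ((hNm _).2 hj) ((sameCycle_pow_left).2 (SameCycle.refl _ _)))
    (by
      intro a ha
      have ha0 := (hNm a).1 ha
      obtain ⟨x, hx⟩ := hsnd a ha0
      obtain ⟨y, hy⟩ := hsnd (R'.r.symm a) ((hsymmfst a).trans ha0)
      have e1 : ξ a = τv x.1 := by simp only [hξ, hx, ov]
      have e2 : ξ (R'.r.symm a) = τv y.1 := by simp only [hξ, hy, ov]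
      obtain ⟨h1, h2⟩ := (hFn a ha0).2 x y hx hy
      simp only [hℓ, e1, e2]
      split_ifs with h
      · exact_mod_cast h1 h
      · exact_mod_cast h2)
  -- Euler
  have hHc := conn G W S hconn hex
  have hcard : Fintype.card (Option {v : V // v ∈ S}) = S.card + 1 := by
    rw [Fintype.card_option, Fintype.card_coe]
  have hEu := hE _ (HG G W S) R' hHc (by omega)
  have hdart := (HG G W S).dart_card_eq_twice_card_edges
  have heN : eN (HG G W S) Finset.univ = (HG G W S).edgeFinset.card := by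
    have h1 : {e : Sym2 (Option {v : V // v ∈ S}) | e ∈ (HG G W S).edgeSet ∧
        ∀ v ∈ e, v ∈ (Finset.univ : Finset (Option {v : V // v ∈ S}))} = (HG G W S).edgeSet := by
      ext e
      simp
    unfold eN
    rw [h1, ← SimpleGraph.coe_edgeFinset, Set.ncard_coe_finset]
  have hedges := Pool.Agent.Helper72.OF4.C3.edges G W S
  rw [heN] at hedges
  -- the sum at the merged vertex
  have ha0 : ∃ a0 : (HG G W S).Dart, a0.fst = none := by
    refine ⟨⟨(none, some ⟨v₀, hv₀⟩), ?_⟩, rfl⟩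
    exact ⟨w₀, hw₀, hvw₀⟩
  obtain ⟨a0, ha0⟩ := ha0
  obtain ⟨k, a, haW, hk0, hk1, hkm, hki⟩ := hR' a0 ha0
  set m := Function.minimalPeriod R'.r a0 with hm
  have hval : ∀ i, τ (R.map.ι ((r' ^ (k i)) a)) = ξ ((R'.r ^ i) a0) ∧
      ∃ x ∈ S, ξ ((R'.r ^ i) a0) = τv x := by
    intro i
    obtain ⟨x, hx1, hx2⟩ := hki i
    have e1 : ξ ((R'.r ^ i) a0) = τv x.1 := by simp only [hξ, hx1, ov]
    refine ⟨?_, x.1, x.2, e1⟩
    rw [htv', hx2, e1]
  have hst := hST m k a ((hτZ a).2 haW) hk0 (fun i _ => hk1 i) hkm (by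
    intro i _
    have h0 := (hval 0).1
    rw [hk0, pow_zero, Perm.coe_one, id_eq] at h0
    obtain ⟨x, hx, hx'⟩ := (hval 0).2
    obtain ⟨y, hy, hy'⟩ := (hval i).2
    rw [(hval i).1, h0, hx', hy']
    exact hreach x hx y hy)
  simp only [(hval _).1] at hst
  have hsum := sum_cycle R'.r N a0 ((hNm a0).2 ha0)
    (fun d => by rw [hNm, hNm, R'.fst_r])
    (fun d hd => R'.trans a0 d (ha0.trans ((hNm d).1 hd).symm)) (fun a => ℓ a - 4)
  have hterm : ∀ i : ℕ, ℓ ((R'.r ^ (i + 1)) a0) - 4 =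
      (F.dist (ξ ((R'.r ^ i) a0)) (ξ ((R'.r ^ (i + 1)) a0)) : ℤ) -
        2 * (if ξ ((R'.r ^ i) a0) ≠ ξ ((R'.r ^ (i + 1)) a0) then 1 else 0) := by
    intro i
    have e1 : R'.r.symm ((R'.r ^ (i + 1)) a0) = (R'.r ^ i) a0 := by
      rw [pow_succ', Perm.mul_apply, R'.r.symm_apply_apply]
    simp only [hℓ, e1]
    by_cases h : ξ ((R'.r ^ i) a0) = ξ ((R'.r ^ (i + 1)) a0)
    · rw [if_pos h.symm, if_neg (not_not.2 h), h, SimpleGraph.dist_self]
      norm_num
    · rw [if_neg (fun h' => h h'.symm), if_pos h, SimpleGraph.dist_comm]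
      ring
  have hcount : ({i : ℕ | i < m ∧ ξ ((R'.r ^ i) a0) ≠ ξ ((R'.r ^ (i + 1)) a0)}.ncard : ℤ) =
      ∑ i ∈ Finset.range m, (if ξ ((R'.r ^ i) a0) ≠ ξ ((R'.r ^ (i + 1)) a0) then 1 else 0 : ℤ) := by
    rw [← Finset.sum_filter, Finset.sum_const, nsmul_eq_mul, mul_one]
    have e2 : {i : ℕ | i < m ∧ ξ ((R'.r ^ i) a0) ≠ ξ ((R'.r ^ (i + 1)) a0)} =
        ((Finset.range m).filter (fun i => ξ ((R'.r ^ i) a0) ≠ ξ ((R'.r ^ (i + 1)) a0)) : Set ℕ) := by
      ext i
      simp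
    rw [e2, Set.ncard_coe_finset]
  have hsum2 : ∑ a ∈ N, (ℓ a - 4) = (∑ i ∈ Finset.range m,
      (F.dist (ξ ((R'.r ^ i) a0)) (ξ ((R'.r ^ (i + 1)) a0)) : ℤ)) -
        2 * ({i : ℕ | i < m ∧ ξ ((R'.r ^ i) a0) ≠ ξ ((R'.r ^ (i + 1)) a0)}.ncard : ℤ) := by
    rw [hsum, hcount, Finset.mul_sum, ← Finset.sum_sub_distrib]
    exact Finset.sum_congr rfl fun i _ => hterm i
  have hst' : 2 * ({i : ℕ | i < m ∧ ξ ((R'.r ^ i) a0) ≠ ξ ((R'.r ^ (i + 1)) a0)}.ncard : ℤ) ≤
      (∑ i ∈ Finset.range m,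
        (F.dist (ξ ((R'.r ^ i) a0)) (ξ ((R'.r ^ (i + 1)) a0)) : ℤ)) + 4 := by
    exact_mod_cast hst
  rw [hcard] at hEu
  rw [hsum2] at hcc
  have hdart' : (Fintype.card (HG G W S).Dart : ℤ) = 2 * ((HG G W S).edgeFinset.card : ℤ) := by
    exact_mod_cast hdart
  have hfin : 2 * ((HG G W S).edgeFinset.card : ℤ) ≤ 4 * (S.card : ℤ) := by
    push_cast at hEu
    linarith
  zify at hedges ⊢
  linarith

end Pool.Agent.Helper76.SO.IQC
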